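import Pool.Agent.Helper10.RC.Homs

/-!
# Packet RC-Rank (MP_b55b7c_an)
-/

open scoped ENNReal NNReal InnerProductSpace ComplexOrder
open Filter Topology

attribute [-instance] CStarMatrix.instAlgebra CStarMatrix.instModule CStarMatrix.instSMul
  CStarMatrix.instMulAction CStarMatrix.instDistribMulAction

noncomputable section
namespace RC
universe u

namespace RankAux

variable {H : Type u} [NormedAddCommGroup H] [InnerProductSpace ℂ H] [CompleteSpace H]

theorem proj_inner {z : H →L[ℂ] H} (hz : IsStarProjection z) (x y : H) :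
    ⟪z x, z y⟫_ℂ = ⟪x, z y⟫_ℂ := by
  have h1 : star z = z := hz.isSelfAdjoint
  have h2 : z * z = z := hz.isIdempotentElem
  calc ⟪z x, z y⟫_ℂ = ⟪(ContinuousLinearMap.adjoint z) x, z y⟫_ℂ := by
        rw [← ContinuousLinearMap.star_eq_adjoint, h1]
    _ = ⟪x, z (z y)⟫_ℂ := by rw [ContinuousLinearMap.adjoint_inner_left]
    _ = ⟪x, (z * z) y⟫_ℂ := rfl
    _ = ⟪x, z y⟫_ℂ := by rw [h2]

variable {A : Type u} [CStarAlgebra A] [PartialOrder A] [StarOrderedRing A]

/-- the factor of `min(1, n t)` -/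
def kf (n : ℕ) (t : ℝ) : ℝ := n / max 1 ((n : ℝ) * t)

theorem kf_cont (n : ℕ) : Continuous (kf n) := by
  unfold kf
  refine continuous_const.div (by fun_prop) fun t => ?_
  have := le_max_left (1 : ℝ) ((n : ℝ) * t)
  linarith

theorem kf_mul (n : ℕ) (t : ℝ) : t * kf n t = min 1 ((n : ℝ) * t) := by
  unfold kf
  rcases le_total 1 ((n : ℝ) * t) with h | h
  · rw [max_eq_right h, min_eq_left h]
    have h1 : (n : ℝ) * t ≠ 0 := by linarith
    have h2 : (n : ℝ) ≠ 0 := left_ne_zero_of_mul h1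
    have h3 : t ≠ 0 := right_ne_zero_of_mul h1
    field_simp
  · rw [max_eq_left h, min_eq_right h]
    ring

/-- `min(1, n a)` -/
def en (a : A) (n : ℕ) : A := cfc (fun t : ℝ => min 1 ((n : ℝ) * t)) a

theorem en_eq {a : A} (ha : IsSelfAdjoint a) (n : ℕ) : en a n = a * cfc (kf n) a := by
  unfold en
  have h1 : (fun t : ℝ => min 1 ((n : ℝ) * t)) = fun t => t * kf n t := by
    funext t
    rw [kf_mul]
  rw [h1, cfc_mul (fun t : ℝ => t) (kf n) a (by fun_prop) (kf_cont n).continuousOn, cfc_id' ℝ a]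

theorem en_sa (a : A) (n : ℕ) : IsSelfAdjoint (en a n) := cfc_predicate _ a

theorem en_norm {a : A} (ha : 0 ≤ a) (n : ℕ) : ‖en a n‖ ≤ 1 := by
  refine norm_cfc_le zero_le_one fun t ht => ?_
  have h0 := spectrum_nonneg_of_nonneg ha ht
  rw [Real.norm_eq_abs, abs_le]
  constructor
  · have : 0 ≤ min 1 ((n : ℝ) * t) := le_min zero_le_one (by positivity)
    linarith
  · exact min_le_left _ _

theorem en_mul {a : A} (ha : 0 ≤ a) {n : ℕ} (hn : 0 < n) : ‖en a n * a - a‖ ≤ 1 / n := by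
  have h1 : en a n * a - a = cfc (fun t : ℝ => min 1 ((n : ℝ) * t) * t - t) a := by
    rw [cfc_sub (fun t : ℝ => min 1 ((n : ℝ) * t) * t) (fun t : ℝ => t) a,
      cfc_mul (fun t : ℝ => min 1 ((n : ℝ) * t)) (fun t : ℝ => t) a, cfc_id' ℝ a]
    rfl
  rw [h1]
  have hn' : (0 : ℝ) < n := by exact_mod_cast hn
  refine norm_cfc_le (by positivity) fun t ht => ?_
  have h0 := spectrum_nonneg_of_nonneg ha ht
  rw [Real.norm_eq_abs, abs_le]
  rcases le_total 1 ((n : ℝ) * t) with h | h
  · rw [min_eq_left h]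
    constructor
    · have : (0 : ℝ) ≤ 1 / n := by positivity
      linarith
    · have : (0 : ℝ) ≤ 1 / n := by positivity
      linarith
  · rw [min_eq_right h]
    have h2 : t ≤ 1 / n := by
      rw [le_div_iff₀ hn']
      linarith
    constructor
    · nlinarith [mul_nonneg (mul_nonneg hn'.le h0) h0]
    · have : (n : ℝ) * t * t ≤ t := by nlinarith
      have : (0 : ℝ) ≤ 1 / n := by positivity
      linarith

theorem tendsto_en (π : A →⋆ₐ[ℂ] (H →L[ℂ] H)) {a : A} (ha : 0 ≤ a) {p : H →L[ℂ] H}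
    (hp : IsStarProjection p) (h1 : p * π a = π a)
    (h2 : ∀ y : H →L[ℂ] H, y * π a = 0 → y * p = 0) (η : H) :
    Tendsto (fun n => π (en a n) η) atTop (𝓝 (p η)) := by
  have hsa : IsSelfAdjoint a := ha.isSelfAdjoint
  have hpe : ∀ n, p * π (en a n) = π (en a n) := by
    intro n
    rw [en_eq hsa, map_mul, ← mul_assoc, h1]
  have hep : ∀ n, π (en a n) * p = π (en a n) := by
    intro n
    have h3 := congrArg star (hpe n)
    rw [star_mul, ← map_star, (en_sa a n).star_eq, hp.isSelfAdjoint.star_eq] at h3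
    exact h3
  have hle : ∀ n, ‖π (en a n)‖ ≤ 1 := by
    intro n
    refine le_trans ?_ (en_norm ha n)
    exact NonUnitalStarAlgHom.norm_apply_le π (en a n)
  -- `p η` is in the closure of the range of `π a`
  have hcl : p η ∈ closure (Set.range (π a)) := by
    set K : Submodule ℂ H := (LinearMap.range (π a).toLinearMap).topologicalClosure with hK
    have hKc : (K : Set H) = closure (Set.range (π a)) := by
      rw [hK, Submodule.topologicalClosure_coe]
      rfl
    have : CompleteSpace K := (Submodule.isClosed_topologicalClosure _).completeSpace_coe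
    have hy : (1 - K.starProjection) * π a = 0 := by
      ext ζ
      have hmem : π a ζ ∈ K := by
        have : π a ζ ∈ (K : Set H) := by
          rw [hKc]
          exact subset_closure ⟨ζ, rfl⟩
        exact this
      change π a ζ - K.starProjection (π a ζ) = 0
      rw [Submodule.starProjection_eq_self_iff.mpr hmem, sub_self]
    have h3 := h2 _ hy
    have h4 : p η - K.starProjection (p η) = 0 := by
      have := congrArg (fun T : H →L[ℂ] H => T η) h3
      exact this
    have h5 : K.starProjection (p η) = p η := (sub_eq_zero.mp h4).symm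
    have h6 : p η ∈ (K : Set H) := Submodule.starProjection_eq_self_iff.mp h5
    rwa [hKc] at h6
  have heq : ∀ n, π (en a n) η = π (en a n) (p η) := by
    intro n
    have := congrArg (fun T : H →L[ℂ] H => T η) (hep n)
    exact this.symm
  simp only [heq]
  generalize p η = ζ at hcl
  rw [Metric.tendsto_atTop]
  intro ε hε
  obtain ⟨_, ⟨w, rfl⟩, hw⟩ := Metric.mem_closure_iff.mp hcl (ε / 3) (by positivity)
  rw [dist_eq_norm] at hw
  obtain ⟨N, hN⟩ := exists_nat_gt (‖w‖ / (ε / 3))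
  refine ⟨N + 1, fun n hn => ?_⟩
  rw [dist_eq_norm]
  have hn0 : 0 < n := by omega
  have hn' : (0 : ℝ) < n := by exact_mod_cast hn0
  have h7 : ‖π (en a n) (π a w) - π a w‖ ≤ 1 / n * ‖w‖ := by
    have : π (en a n) (π a w) - π a w = π (en a n * a - a) w := by
      rw [map_sub, map_mul]
      rfl
    rw [this]
    refine (ContinuousLinearMap.le_opNorm _ _).trans ?_
    gcongr
    exact (NonUnitalStarAlgHom.norm_apply_le π _).trans (en_mul ha hn0)
  have h8 : 1 / (n : ℝ) * ‖w‖ < ε / 3 := by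
    rw [div_lt_iff₀ (by positivity)] at hN
    have : (N : ℝ) < n := by exact_mod_cast (by omega : N < n)
    rw [one_div, inv_mul_lt_iff₀ hn']
    calc ‖w‖ < N * (ε / 3) := hN
      _ ≤ n * (ε / 3) := by gcongr
  have h9 : ‖π (en a n) (ζ - π a w)‖ ≤ ‖ζ - π a w‖ := by
    refine (ContinuousLinearMap.le_opNorm _ _).trans ?_
    calc _ ≤ 1 * ‖ζ - π a w‖ := by gcongr; exact hle n
      _ = _ := one_mul _
  calc ‖π (en a n) ζ - ζ‖ = ‖π (en a n) (ζ - π a w) + (π (en a n) (π a w) - π a w)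
        + (π a w - ζ)‖ := by
        congr 1
        rw [map_sub]
        abel
    _ ≤ ‖π (en a n) (ζ - π a w)‖ + ‖π (en a n) (π a w) - π a w‖ + ‖π a w - ζ‖ :=
        norm_add₃_le
    _ < ε / 3 + ε / 3 + ε / 3 := by
        rw [norm_sub_rev (π a w) ζ]
        linarith
    _ = ε := by ring

end RankAux

open RankAux

theorem rankP (h1 : RepFVP.{u}) (h2 : QOfTP.{u}) (h3 : QBasicP.{u}) : RankP.{u} := by
  intro A _ _ _ φ H _ _ _ π ρ ξ hrep z hz hz0
  obtain ⟨hFV, hπ⟩ := h1 A φ H π ρ ξ hrep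
  obtain ⟨hzS, hzp, hzc⟩ := hz
  have hzξ : z ξ ≠ 0 := fun h => hz0 (hFV.sep z hzS h)
  have hre : ⟪ξ, z ξ⟫_ℂ = ((‖z ξ‖ ^ 2 : ℝ) : ℂ) := by
    rw [← proj_inner hzp, inner_self_eq_norm_sq_to_K]
    push_cast
    rfl
  have ht : tr ξ z = ‖z ξ‖ ^ 2 := by
    unfold tr
    rw [hre, Complex.ofReal_re]
  have htpos : 0 < tr ξ z := by
    rw [ht]
    have := norm_pos_iff.mpr hzξ
    positivity
  set t : ℝ := tr ξ z with htdef
  have hre' : ⟪ξ, z ξ⟫_ℂ = (t : ℂ) := by rw [hre, ht]
  have hcomm : ∀ (x : A) (ζ : H), z (π x ζ) = π x (z ζ) := by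
    intro x ζ
    have := congrArg (fun T : H →L[ℂ] H => T ζ) (hzc (π x) (hπ x))
    exact this
  let φz : TState A :=
    { φ :=
        { toFun := fun a => ⟪ξ, z (π a ξ)⟫_ℂ / (t : ℂ)
          map_add' := by
            intro a b
            rw [map_add, ContinuousLinearMap.add_apply, map_add, inner_add_right, add_div]
          map_smul' := by
            intro c a
            rw [map_smul, ContinuousLinearMap.smul_apply, map_smul, inner_smul_right,
              RingHom.id_apply, smul_eq_mul, mul_div_assoc] }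
      nonneg := by
        intro a ha
        obtain ⟨b, hb⟩ := CStarAlgebra.nonneg_iff_eq_star_mul_self.mp ha
        change 0 ≤ ⟪ξ, z (π a ξ)⟫_ℂ / (t : ℂ)
        have h4 : ⟪ξ, z (π a ξ)⟫_ℂ = ((‖z (π b ξ)‖ ^ 2 : ℝ) : ℂ) := by
          rw [hb, map_mul, map_star]
          change ⟪ξ, z (star (π b) (π b ξ))⟫_ℂ = _
          have h5 : z (star (π b) (π b ξ)) = star (π b) (z (π b ξ)) := by
            have := hcomm (star b) (π b ξ)
            rwa [map_star] at this
          rw [h5, ContinuousLinearMap.star_eq_adjoint, ContinuousLinearMap.adjoint_inner_right,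
            ← proj_inner hzp, inner_self_eq_norm_sq_to_K]
          push_cast
          rfl
        rw [h4, ← Complex.ofReal_div]
        exact_mod_cast (by positivity : (0 : ℝ) ≤ ‖z (π b ξ)‖ ^ 2 / t)
      trace := by
        intro a b
        change ⟪ξ, z (π (a * b) ξ)⟫_ℂ / (t : ℂ) = ⟪ξ, z (π (b * a) ξ)⟫_ℂ / (t : ℂ)
        congr 1
        have h4 := hFV.trace (z * π a) (Set.mul_mem_centralizer hzS (hπ a)) (π b) (hπ b)
        rw [map_mul, map_mul]
        change ⟪ξ, z (π a (π b ξ))⟫_ℂ = ⟪ξ, z (π b (π a ξ))⟫_ℂ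
        rw [hcomm b (π a ξ)]
        exact h4
      one := by
        change ⟪ξ, z (π 1 ξ)⟫_ℂ / (t : ℂ) = 1
        rw [map_one]
        change ⟪ξ, z ξ⟫_ℂ / (t : ℂ) = 1
        rw [hre']
        have : (t : ℂ) ≠ 0 := by exact_mod_cast htpos.ne'
        exact div_self this }
  obtain ⟨σ, hσ⟩ := h2 A φz
  refine ⟨σ, fun a p ha hpS hp h4 h5 => ?_⟩
  have hsa : IsSelfAdjoint a := ha.isSelfAdjoint
  have hval : ∀ n : ℕ, σ.τ Unit (cfc (fun t : ℝ => min 1 ((n : ℝ) * t)) (one1 a)) =
      (⟪ξ, z (π (en a n) ξ)⟫_ℂ).re / t := by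
    intro n
    rw [← one1_cfc _ (by fun_prop) a hsa, hσ]
    rw [Fintype.sum_unique]
    change (⟪ξ, z (π (en a n) ξ)⟫_ℂ / (t : ℂ)).re = _
    rw [Complex.div_ofReal_re]
  have hlim : Tendsto (fun n : ℕ => σ.τ Unit (cfc (fun t : ℝ => min 1 ((n : ℝ) * t)) (one1 a)))
      atTop (𝓝 (tr ξ (z * p) / t)) := by
    simp only [hval]
    refine Tendsto.div_const ?_ t
    have h6 := tendsto_en π ha hp h4 h5 ξ
    have h7 : Tendsto (fun n => z (π (en a n) ξ)) atTop (𝓝 (z (p ξ))) :=
      (z.continuous.tendsto _).comp h6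
    have h8 : Tendsto (fun n => ⟪ξ, z (π (en a n) ξ)⟫_ℂ) atTop (𝓝 ⟪ξ, z (p ξ)⟫_ℂ) :=
      tendsto_const_nhds.inner h7
    exact (Complex.continuous_re.tendsto _).comp h8
  have hone : 0 ≤ one1 a := one1_nonneg ha
  obtain ⟨hbdd, -⟩ := h3 A σ Unit (one1 a) hone
  have hmono : Monotone fun n : ℕ => σ.τ Unit (cfc (fun t : ℝ => min 1 ((n : ℝ) * t)) (one1 a)) := by
    intro m n hmn
    refine σ.cfc_mono (by fun_prop) (by fun_prop) (fun s hs => ?_) (fun s hs => ?_)
    · have h0 := spectrum_nonneg_of_nonneg hone hs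
      exact le_min zero_le_one (by positivity)
    · have h0 := spectrum_nonneg_of_nonneg hone hs
      have : (m : ℝ) ≤ n := by exact_mod_cast hmn
      gcongr
  have h9 := tendsto_nhds_unique (tendsto_atTop_ciSup hmono hbdd) hlim
  have h10 : σ.dim (one1 a) = tr ξ (z * p) / t := h9
  rw [h10, div_mul_cancel₀ _ htpos.ne']

end RC
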